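import Pool.Agent.Helper97.Frog.Assemble

/-!
# A transient regime exists for the frog model on every supercritical Galton-Watson tree
-/

open MeasureTheory ProbabilityTheory Set Pool.Agent.Helper97.Frog
open scoped ENNReal NNReal

namespace Pool.Agent.Results.MP_ac6ae5_pr.TransientRegime

/-- Let `p` be any offspring distribution with mean larger than `1` (the mean may be infinite, and
there is no assumption on the probabilities of having no child or one child).  Then the
Galton-Watson tree survives with positive probability and there is `lam > 0` such that, for almost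
every tree of the Galton-Watson law conditioned on non-extinction, the frog model with
`Poisson(mu)` sleeping particles per non-root vertex is transient for all `mu ≤ lam`. -/
theorem result (p : Measure ℕ) [IsProbabilityMeasure p] (hp : 1 < ∫⁻ k, (k : ℝ≥0∞) ∂p) :
    0 < galtonWatson p Survives ∧
      ∃ lam : ℝ≥0, 0 < lam ∧
        ∀ᵐ ξ ∂((galtonWatson p)[|Survives]), ∀ mu : ℝ≥0, mu ≤ lam → Transient mu ξ := by
  refine ⟨survives_pos p hp, ?_⟩
  obtain ⟨lam, hlam, h⟩ := exists_transient p hp
  refine ⟨lam, hlam, ?_⟩
  have h1 : ∀ᵐ ξ ∂((galtonWatson p)[|Survives]), ξ ∈ Survives → ∀ mu ≤ lam, Transient mu ξ :=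
    cond_absolutelyContinuous.ae_le h
  filter_upwards [h1, ae_cond_mem measurableSet_survives] with ξ h2 h3
  exact h2 h3

end Pool.Agent.Results.MP_ac6ae5_pr.TransientRegime
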